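import Pool.Agent.Lib.RzT.Defs

/-!
Folner's condition passes to extensions (after `RzT.ext_folner`, now for all kernels).
-/

set_option autoImplicit false

namespace RzE

open RzT

theorem sub_folner {G : Type} [Group G] (A : Subgroup G) (hA : Folner A)
    (C : Finset G) (hC : ∀ c ∈ C, c ∈ A) (ε : ℝ) (hε : 0 < ε) :
    ∃ K : Finset G, K.Nonempty ∧ (∀ k ∈ K, k ∈ A) ∧
      ∀ s ∈ C, (Set.ncard {k : G | k ∈ K ∧ s * k ∉ K} : ℝ) ≤ ε * K.card := by
  classical
  obtain ⟨K, hK, h⟩ := hA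
    (C.attach.image fun c : {x // x ∈ C} => (⟨c.1, hC c.1 c.2⟩ : A)) ε hε
  refine ⟨K.map ⟨Subtype.val, Subtype.val_injective⟩, ?_, ?_, ?_⟩
  · obtain ⟨x, hx⟩ := hK
    exact ⟨x.1, Finset.mem_map.2 ⟨x, hx, rfl⟩⟩
  · intro k hk
    obtain ⟨x, _, rfl⟩ := Finset.mem_map.1 hk
    exact x.2
  · intro s hs
    have hmem : ∀ x : A, (x : G) ∈ K.map ⟨Subtype.val, Subtype.val_injective⟩ ↔ x ∈ K := by
      intro x
      rw [Finset.mem_map]
      constructor
      · rintro ⟨y, hy, hyx⟩
        have : y = x := Subtype.ext hyx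
        rwa [← this]
      · intro hx
        exact ⟨x, hx, rfl⟩
    have h1 := h ⟨s, hC s hs⟩ (by
      rw [Finset.mem_image]
      exact ⟨⟨s, hs⟩, Finset.mem_attach _ _, rfl⟩)
    have hset : {k : G | k ∈ K.map ⟨Subtype.val, Subtype.val_injective⟩ ∧
        s * k ∉ K.map ⟨Subtype.val, Subtype.val_injective⟩} =
        Subtype.val '' {k : A | k ∈ K ∧ (⟨s, hC s hs⟩ : A) * k ∉ K} := by
      ext k
      constructor
      · rintro ⟨hk1, hk2⟩
        obtain ⟨x, hx, rfl⟩ := Finset.mem_map.1 hk1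
        refine ⟨x, ⟨hx, fun hc => hk2 ?_⟩, rfl⟩
        exact (hmem (⟨s, hC s hs⟩ * x)).2 hc
      · rintro ⟨x, ⟨hx1, hx2⟩, rfl⟩
        refine ⟨(hmem x).2 hx1, fun hc => hx2 ?_⟩
        exact (hmem (⟨s, hC s hs⟩ * x)).1 hc
    rw [hset, Set.ncard_image_of_injective _ Subtype.val_injective, Finset.card_map]
    exact h1

theorem ext_folner' {G H : Type} [Group G] [Group H] (π : G →* H) (hπ : Function.Surjective π)
    (hA : Folner π.ker) (hH : Folner H) : Folner G := by
  classical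
  intro S ε hε
  have hset : ∀ {G' : Type} [Group G'] (K : Finset G') (s : G'),
      Set.ncard {k : G' | k ∈ K ∧ s * k ∉ K} = (K.filter fun k => s * k ∉ K).card := by
    intro G' _ K s
    rw [← Set.ncard_coe_finset]
    congr 1
    ext k
    simp
  obtain ⟨Q, hQne, hQ⟩ := hH (S.image π) (ε / 2) (by positivity)
  let σ : H → G := Function.surjInv hπ
  have hσ : ∀ h, π (σ h) = h := Function.surjInv_eq hπ
  let c : G → H → G := fun s q => (σ (π s * q))⁻¹ * s * σ q
  have hc : ∀ s q, c s q ∈ π.ker := by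
    intro s q
    rw [MonoidHom.mem_ker]
    change π ((σ (π s * q))⁻¹ * s * σ q) = 1
    rw [map_mul, map_mul, map_inv, hσ, hσ]
    group
  obtain ⟨P, hPne, hPA, hP⟩ := sub_folner π.ker hA ((S ×ˢ Q).image fun x => c x.1 x.2)
    (by
      intro x hx
      rw [Finset.mem_image] at hx
      obtain ⟨y, _, rfl⟩ := hx
      exact hc _ _) (ε / 2) (by positivity)
  let f : H × G → G := fun x => σ x.1 * x.2
  have hinj : Set.InjOn f ((Q ×ˢ P : Finset (H × G)) : Set (H × G)) := by
    rintro ⟨q, p⟩ hx ⟨q', p'⟩ hy h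
    rw [Finset.mem_coe, Finset.mem_product] at hx hy
    have h1 : σ q * p = σ q' * p' := h
    have h2 := congrArg π h1
    rw [map_mul, map_mul, hσ, hσ, MonoidHom.mem_ker.mp (hPA p hx.2), MonoidHom.mem_ker.mp (hPA p' hy.2),
      mul_one, mul_one] at h2
    subst h2
    have h3 := mul_left_cancel h1
    rw [h3]
  refine ⟨(Q ×ˢ P).image f, (hQne.product hPne).image f, ?_⟩
  intro s hs
  have hKcard : ((Q ×ˢ P).image f).card = Q.card * P.card := by
    rw [Finset.card_image_of_injOn hinj, Finset.card_product]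
  have hsub : (((Q ×ˢ P).image f).filter fun k => s * k ∉ (Q ×ˢ P).image f) ⊆
      ((Q.filter fun q => π s * q ∉ Q) ×ˢ P).image f ∪
        Q.biUnion fun q => (P.filter fun p => c s q * p ∉ P).image fun p => f (q, p) := by
    intro k hk
    rw [Finset.mem_filter, Finset.mem_image] at hk
    obtain ⟨⟨⟨q, p⟩, hqp, rfl⟩, hk2⟩ := hk
    rw [Finset.mem_product] at hqp
    rw [Finset.mem_union]
    by_cases h1 : π s * q ∈ Q
    · right
      rw [Finset.mem_biUnion]
      refine ⟨q, hqp.1, ?_⟩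
      rw [Finset.mem_image]
      refine ⟨p, ?_, rfl⟩
      rw [Finset.mem_filter]
      refine ⟨hqp.2, fun h2 => hk2 ?_⟩
      rw [Finset.mem_image]
      refine ⟨(π s * q, c s q * p), ?_, ?_⟩
      · rw [Finset.mem_product]
        exact ⟨h1, h2⟩
      · change σ (π s * q) * ((σ (π s * q))⁻¹ * s * σ q * p) = s * (σ q * p)
        group
    · left
      rw [Finset.mem_image]
      refine ⟨(q, p), ?_, rfl⟩
      rw [Finset.mem_product, Finset.mem_filter]
      exact ⟨⟨hqp.1, h1⟩, hqp.2⟩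
  rw [hset, hKcard]
  have h1 : ((Q.filter fun q => π s * q ∉ Q).card : ℝ) ≤ ε / 2 * Q.card := by
    have h := hQ (π s) (Finset.mem_image_of_mem π hs)
    rw [hset] at h
    exact h
  have h2 : ∀ q ∈ Q, ((P.filter fun p => c s q * p ∉ P).card : ℝ) ≤ ε / 2 * P.card := by
    intro q hq
    have h := hP (c s q) (by
      rw [Finset.mem_image]
      exact ⟨(s, q), Finset.mem_product.mpr ⟨hs, hq⟩, rfl⟩)
    rw [hset] at h
    exact h
  have h3 : (((Q ×ˢ P).image f).filter fun k => s * k ∉ (Q ×ˢ P).image f).card ≤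
      (Q.filter fun q => π s * q ∉ Q).card * P.card +
        ∑ q ∈ Q, (P.filter fun p => c s q * p ∉ P).card := by
    refine (Finset.card_le_card hsub).trans ((Finset.card_union_le _ _).trans ?_)
    refine Nat.add_le_add ?_ ?_
    · refine Finset.card_image_le.trans ?_
      rw [Finset.card_product]
    · refine Finset.card_biUnion_le.trans (Finset.sum_le_sum fun q _ => Finset.card_image_le)
  have h4 : ((((Q ×ˢ P).image f).filter fun k => s * k ∉ (Q ×ˢ P).image f).card : ℝ) ≤
      ((Q.filter fun q => π s * q ∉ Q).card : ℝ) * P.card +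
        ∑ q ∈ Q, ((P.filter fun p => c s q * p ∉ P).card : ℝ) := by
    exact_mod_cast h3
  have h5 : ∑ q ∈ Q, ((P.filter fun p => c s q * p ∉ P).card : ℝ) ≤ Q.card * (ε / 2 * P.card) := by
    refine (Finset.sum_le_sum h2).trans ?_
    rw [Finset.sum_const, nsmul_eq_mul]
  have h6 : ((Q.filter fun q => π s * q ∉ Q).card : ℝ) * P.card ≤ ε / 2 * Q.card * P.card :=
    mul_le_mul_of_nonneg_right h1 (by positivity)
  refine h4.trans ?_
  push_cast
  nlinarith [h5, h6]

end RzE
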