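import Pool.Agent.Lib.RzE.SDef
import Pool.Agent.Lib.RzT.Tree

/-!
Supramenability passes to subgroups and to extensions by finite groups.
-/

set_option autoImplicit false

namespace RzE

open RzT (InvMeas)

theorem supra_sub {G : Type} [Group G] (K : Subgroup G) (h : Supra G) : Supra K := by
  intro A hA
  obtain ⟨μ, h1, h2, h3⟩ := h (Subtype.val '' A) (hA.image _)
  refine ⟨fun B => μ (Subtype.val '' B), h1, ?_, ?_⟩
  · intro B C hBC
    show μ (Subtype.val '' (B ∪ C)) = μ (Subtype.val '' B) + μ (Subtype.val '' C)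
    rw [Set.image_union, h2 _ _ ((Set.disjoint_image_iff Subtype.val_injective).mpr hBC)]
  · intro g B
    show μ (Subtype.val '' ((fun x => g * x) '' B)) = μ (Subtype.val '' B)
    rw [← h3 (g : G) (Subtype.val '' B), Set.image_image, Set.image_image]
    rfl

theorem supra_fi {G : Type} [Group G] (K : Subgroup G) [K.Normal] [Finite (G ⧸ K)]
    (h : Supra K) : Supra G := by
  classical
  have := Fintype.ofFinite (G ⧸ K)
  intro A hA
  let r : G ⧸ K → G := fun y => y.out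
  have hr : ∀ y, (QuotientGroup.mk (r y) : G ⧸ K) = y := fun y => QuotientGroup.out_eq' y
  -- the trace of `r_j⁻¹ B r_i` on `K`
  let Tr : G ⧸ K → G ⧸ K → Set G → Set K := fun j i B => {k : K | r j * k * (r i)⁻¹ ∈ B}
  let C : Set K := ⋃ j : G ⧸ K, ⋃ i : G ⧸ K, Tr j i A
  obtain ⟨a, ha⟩ := hA
  have hC : C.Nonempty := by
    have hk : (r 1)⁻¹ * a * r ((QuotientGroup.mk ((r 1)⁻¹ * a))⁻¹) ∈ K := by
      rw [← QuotientGroup.eq_one_iff, QuotientGroup.mk_mul, hr, mul_inv_cancel]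
    refine ⟨⟨_, hk⟩, Set.mem_iUnion₂.mpr ⟨1, (QuotientGroup.mk ((r 1)⁻¹ * a))⁻¹, ?_⟩⟩
    show r 1 * ((r 1)⁻¹ * a * r ((QuotientGroup.mk ((r 1)⁻¹ * a))⁻¹)) *
      (r ((QuotientGroup.mk ((r 1)⁻¹ * a))⁻¹))⁻¹ ∈ A
    have : r 1 * ((r 1)⁻¹ * a * r ((QuotientGroup.mk ((r 1)⁻¹ * a))⁻¹)) *
      (r ((QuotientGroup.mk ((r 1)⁻¹ * a))⁻¹))⁻¹ = a := by group
    rw [this]
    exact ha
  obtain ⟨ν, hν1, hν⟩ := h C hC
  have hν0 : ν ∅ = 0 := hν.empty hν1
  let μ : Set G → ENNReal := fun B => ∑ j : G ⧸ K, ∑ i : G ⧸ K, ν (Tr j i B)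
  have hadd : ∀ B D : Set G, Disjoint B D → μ (B ∪ D) = μ B + μ D := by
    intro B D hBD
    show (∑ j : G ⧸ K, ∑ i : G ⧸ K, ν (Tr j i (B ∪ D))) = _
    have h1 : ∀ j i, ν (Tr j i (B ∪ D)) = ν (Tr j i B) + ν (Tr j i D) := by
      intro j i
      have h2 : Tr j i (B ∪ D) = Tr j i B ∪ Tr j i D := rfl
      rw [h2, hν.1]
      rw [Set.disjoint_left]
      intro x hx hx'
      exact Set.disjoint_left.mp hBD hx hx'
    simp only [h1, Finset.sum_add_distrib]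
    rfl
  have hinv : ∀ (g : G) (B : Set G), μ ((fun x => g * x) '' B) = μ B := by
    intro g B
    show (∑ j : G ⧸ K, ∑ i : G ⧸ K, ν (Tr j i ((fun x => g * x) '' B))) =
      ∑ j : G ⧸ K, ∑ i : G ⧸ K, ν (Tr j i B)
    have h1 : ∀ j i, ν (Tr j i ((fun x => g * x) '' B)) =
        ν (Tr ((QuotientGroup.mk g)⁻¹ * j) i B) := by
      intro j i
      have hk : (r j)⁻¹ * g * r ((QuotientGroup.mk g)⁻¹ * j) ∈ K := by
        rw [← QuotientGroup.eq_one_iff, QuotientGroup.mk_mul, QuotientGroup.mk_mul,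
          QuotientGroup.mk_inv, hr, hr]
        group
      rw [← hν.2 ⟨_, hk⟩ (Tr ((QuotientGroup.mk g)⁻¹ * j) i B)]
      congr 1
      ext x
      constructor
      · rintro ⟨b, hb, hbx⟩
        refine ⟨⟨_, hk⟩⁻¹ * x, ?_, mul_inv_cancel_left _ _⟩
        show r ((QuotientGroup.mk g)⁻¹ * j) *
          (((r j)⁻¹ * g * r ((QuotientGroup.mk g)⁻¹ * j))⁻¹ * (x : G)) * (r i)⁻¹ ∈ B
        have h2 : r ((QuotientGroup.mk g)⁻¹ * j) *
          (((r j)⁻¹ * g * r ((QuotientGroup.mk g)⁻¹ * j))⁻¹ * (x : G)) * (r i)⁻¹ =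
            g⁻¹ * (r j * x * (r i)⁻¹) := by group
        rw [h2, ← hbx]
        simpa using hb
      · rintro ⟨z, hz, rfl⟩
        refine ⟨r ((QuotientGroup.mk g)⁻¹ * j) * z * (r i)⁻¹, hz, ?_⟩
        show g * (r ((QuotientGroup.mk g)⁻¹ * j) * z * (r i)⁻¹) =
          r j * ((r j)⁻¹ * g * r ((QuotientGroup.mk g)⁻¹ * j) * (z : G)) * (r i)⁻¹
        group
    simp only [h1]
    exact Fintype.sum_equiv (Equiv.mulLeft (QuotientGroup.mk g)⁻¹)
      (fun j => ∑ i : G ⧸ K, ν (Tr ((QuotientGroup.mk g)⁻¹ * j) i B))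
      (fun j => ∑ i : G ⧸ K, ν (Tr j i B)) (fun j => rfl)
  have hμ : InvMeas μ := ⟨hadd, hinv⟩
  have hle : ∀ j i, ν (Tr j i A) ≤ 1 := by
    intro j i
    rw [← hν1]
    apply hν.mono
    exact Set.subset_iUnion₂ (s := fun j i => Tr j i A) j i
  have hμtop : μ A ≠ ⊤ := by
    apply ne_of_lt
    show (∑ j : G ⧸ K, ∑ i : G ⧸ K, ν (Tr j i A)) < ⊤
    rw [ENNReal.sum_lt_top]
    intro j _
    rw [ENNReal.sum_lt_top]
    intro i _
    exact lt_of_le_of_lt (hle j i) ENNReal.one_lt_top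
  have hμ0 : μ A ≠ 0 := by
    intro h0
    have h1 : ∀ j i, ν (Tr j i A) = 0 := by
      intro j i
      have h2 := (Finset.sum_eq_zero_iff.mp h0) j (Finset.mem_univ _)
      exact (Finset.sum_eq_zero_iff.mp h2) i (Finset.mem_univ _)
    have hun : ∀ s : Finset ((G ⧸ K) × (G ⧸ K)), ν (⋃ p ∈ s, Tr p.1 p.2 A) = 0 := by
      intro s
      induction s using Finset.induction_on with
      | empty => simpa using hν0
      | insert p s _ ih =>
        rw [Finset.set_biUnion_insert]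
        have h3 : Tr p.1 p.2 A ∪ ⋃ x ∈ s, Tr x.1 x.2 A =
            Tr p.1 p.2 A ∪ ((⋃ x ∈ s, Tr x.1 x.2 A) \ Tr p.1 p.2 A) := by
          rw [Set.union_sdiff_self]
        rw [h3, hν.1 _ _ Set.disjoint_sdiff_right, h1, zero_add]
        exact le_antisymm ((hν.mono Set.sdiff_subset).trans (le_of_eq ih)) bot_le
    have h4 : C = ⋃ p ∈ (Finset.univ : Finset ((G ⧸ K) × (G ⧸ K))), Tr p.1 p.2 A := by
      ext x
      simp [C]
    rw [h4, hun] at hν1
    exact zero_ne_one hν1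
  refine ⟨fun B => μ B / μ A, ENNReal.div_self hμ0 hμtop, ?_, ?_⟩
  · intro B D hBD
    show μ (B ∪ D) / μ A = μ B / μ A + μ D / μ A
    rw [hadd B D hBD, ENNReal.add_div]
  · intro g B
    show μ ((fun x => g * x) '' B) / μ A = μ B / μ A
    rw [hinv]

end RzE
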