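import Pool.Agent.Lib.RzE.Sub
import Pool.Agent.Lib.RzE.Ext

/-!
The criterion in its final form.
-/

set_option autoImplicit false

namespace RzE

open RzT (InvMeas Folner exists_meas)

theorem full {Γ A : Type} [Group Γ] [Group A] (K : Subgroup Γ) [K.Normal] (θ : Γ → A)
    (hθ : ∀ x ∈ K, ∀ y ∈ K, θ (x * y) = θ x * θ y) (c : Γ) (hc : c ∈ K)
    (hfin : {y : Γ ⧸ K | ∃ g : Γ, (QuotientGroup.mk g : Γ ⧸ K) = y ∧ θ (g⁻¹ * c * g) ≠ 1}.Finite)
    (hne : ∃ g : Γ, θ (g⁻¹ * c * g) ≠ 1) :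
    ((∃ S : Finset (Γ ⧸ K), Infinite (Subgroup.closure (S : Set (Γ ⧸ K)))) →
      ∃ B : Set Γ, B.Nonempty ∧ ¬ ∃ μ : Set Γ → ENNReal, μ B = 1 ∧ InvMeas μ) ∧
    ((∃ f : Fin 2 → Γ, Function.Injective ⇑(FreeSemigroup.lift f)) ↔
      (∃ f : Fin 2 → K, Function.Injective ⇑(FreeSemigroup.lift f)) ∨
        ∃ w : Γ, ∀ k : ℕ, 0 < k → w ^ k ∉ K) ∧
    (Folner K → Folner (Γ ⧸ K) → ∃ m : Set Γ → ENNReal, m Set.univ = 1 ∧ InvMeas m) := by
  refine ⟨fun ⟨S, hS⟩ => RzW.not_supra_lf K θ hθ c hc hfin hne S hS, ⟨?_, ?_⟩, ?_⟩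
  · intro hf
    by_cases hper : ∃ w : Γ, ∀ k : ℕ, 0 < k → w ^ k ∉ K
    · exact Or.inr hper
    · left
      push Not at hper
      exact free_sub K hper hf
  · rintro (h | ⟨w, hw⟩)
    · exact free_up K h
    · exact RzW.free_of_not_periodic K θ hθ c hc hfin hne w hw
  · intro hK hF
    have h1 : Folner (QuotientGroup.mk' K).ker := by
      rw [QuotientGroup.ker_mk']
      exact hK
    exact exists_meas (ext_folner' (QuotientGroup.mk' K) (QuotientGroup.mk'_surjective K) h1 hF)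

end RzE
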