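import Pool.Agent.Lib.RzE.Lim
import Pool.Agent.Lib.RzE.Fin
import Pool.Agent.Lib.RzE.Full

/-!
The exact form of the criterion.
-/

set_option autoImplicit false

namespace RzE

open RzT (InvMeas Folner)

theorem supra_of_lf {Γ : Type} [Group Γ] (K : Subgroup Γ) [K.Normal] (hK : Supra K)
    (hlf : ∀ S : Finset (Γ ⧸ K), Finite (Subgroup.closure (S : Set (Γ ⧸ K)))) : Supra Γ := by
  classical
  let Q : Finset Γ → Subgroup (Γ ⧸ K) := fun S =>
    Subgroup.closure ((S.image (QuotientGroup.mk : Γ → Γ ⧸ K) : Finset (Γ ⧸ K)) : Set (Γ ⧸ K))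
  let F : Finset Γ → Subgroup Γ := fun S => (Q S).comap (QuotientGroup.mk' K)
  apply supra_lim F
  · intro S g hg
    show QuotientGroup.mk g ∈ Q S
    apply Subgroup.subset_closure
    exact_mod_cast Finset.mem_image_of_mem _ hg
  · intro S
    have hle : K ≤ F S := by
      intro k hk
      show QuotientGroup.mk k ∈ Q S
      rw [(QuotientGroup.eq_one_iff k).mpr hk]
      exact (Q S).one_mem
    have hfin : Finite (Q S) := hlf _
    -- the kernel of `F S → Q S`
    let π : F S →* Q S :=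
      { toFun := fun x => ⟨QuotientGroup.mk (x : Γ), x.2⟩
        map_one' := rfl
        map_mul' := fun x y => rfl }
    have hker : π.ker = K.subgroupOf (F S) := by
      ext x
      rw [MonoidHom.mem_ker, Subgroup.mem_subgroupOf, ← QuotientGroup.eq_one_iff]
      exact ⟨fun h => congrArg Subtype.val h, fun h => Subtype.ext h⟩
    have hKs : Supra π.ker := by
      rw [hker]
      intro A hA
      let e : K.subgroupOf (F S) ≃* K := Subgroup.subgroupOfEquivOfLe hle
      obtain ⟨μ, h1, h2, h3⟩ := hK (e '' A) (hA.image e)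
      refine ⟨fun B => μ (e '' B), h1, ?_, ?_⟩
      · intro B C hBC
        show μ (e '' (B ∪ C)) = μ (e '' B) + μ (e '' C)
        rw [Set.image_union, h2 _ _ ((Set.disjoint_image_iff e.injective).mpr hBC)]
      · intro g B
        show μ (e '' ((fun x => g * x) '' B)) = μ (e '' B)
        rw [← h3 (e g) (e '' B), Set.image_image, Set.image_image]
        simp only [map_mul]
    have hq : Finite (F S ⧸ π.ker) :=
      Finite.of_injective _ (QuotientGroup.kerLift_injective π)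
    exact supra_fi π.ker hKs

theorem exact {Γ A : Type} [Group Γ] [Group A] (K : Subgroup Γ) [K.Normal] (θ : Γ → A)
    (hθ : ∀ x ∈ K, ∀ y ∈ K, θ (x * y) = θ x * θ y) (c : Γ) (hc : c ∈ K)
    (hfin : {y : Γ ⧸ K | ∃ g : Γ, (QuotientGroup.mk g : Γ ⧸ K) = y ∧ θ (g⁻¹ * c * g) ≠ 1}.Finite)
    (hne : ∃ g : Γ, θ (g⁻¹ * c * g) ≠ 1) :
    (Supra Γ ↔ Supra K ∧ ∀ S : Finset (Γ ⧸ K), Finite (Subgroup.closure (S : Set (Γ ⧸ K)))) ∧
    ((∃ f : Fin 2 → Γ, Function.Injective ⇑(FreeSemigroup.lift f)) ↔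
      (∃ f : Fin 2 → K, Function.Injective ⇑(FreeSemigroup.lift f)) ∨
        ∃ w : Γ, ∀ k : ℕ, 0 < k → w ^ k ∉ K) ∧
    (Folner K → Folner (Γ ⧸ K) → ∃ m : Set Γ → ENNReal, m Set.univ = 1 ∧ InvMeas m) := by
  obtain ⟨h1, h2, h3⟩ := full K θ hθ c hc hfin hne
  refine ⟨⟨fun h => ⟨supra_sub K h, ?_⟩, fun h => supra_of_lf K h.1 h.2⟩, h2, h3⟩
  intro S
  by_contra hS
  rw [not_finite_iff_infinite] at hS
  obtain ⟨B, hB, hB2⟩ := h1 ⟨S, hS⟩
  exact hB2 (h B hB)

end RzE
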