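import Pool.Agent.Lib.RzE.SDef

/-!
A directed union of supramenable groups is supramenable.
-/

set_option autoImplicit false

namespace RzE

open RzT (InvMeas)
open Filter Topology

theorem supra_lim {G : Type} [Group G] (F : Finset G → Subgroup G)
    (hmem : ∀ (S : Finset G) (g : G), g ∈ S → g ∈ F S) (h : ∀ S, Supra (F S)) : Supra G := by
  classical
  rintro A ⟨a0, ha0⟩
  have hA' : ∀ S, ({x : F S | (x : G) * a0 ∈ A}).Nonempty := fun S => ⟨1, by simpa using ha0⟩
  choose m hm1 hm using fun S => h S _ (hA' S)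
  let ν : Finset G → Set G → ENNReal := fun S B => m S {x : F S | (x : G) * a0 ∈ B}
  let U : Ultrafilter (Finset G) := Ultrafilter.of atTop
  have hlim : ∀ B, ∃ l, Tendsto (fun S => ν S B) U (𝓝 l) := by
    intro B
    obtain ⟨l, -, hl⟩ := isCompact_univ.ultrafilter_le_nhds (U.map fun S => ν S B) (by simp)
    exact ⟨l, hl⟩
  choose μ hμ using hlim
  refine ⟨μ, ?_, ?_, ?_⟩
  · apply tendsto_nhds_unique (hμ A)
    have h1 : (fun S => ν S A) = fun _ => 1 := by
      funext S
      exact hm1 S
    rw [h1]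
    exact tendsto_const_nhds
  · intro B C hBC
    apply tendsto_nhds_unique (hμ (B ∪ C))
    have h1 : (fun S => ν S (B ∪ C)) = fun S => ν S B + ν S C := by
      funext S
      have h2 : {x : F S | (x : G) * a0 ∈ B ∪ C} =
          {x : F S | (x : G) * a0 ∈ B} ∪ {x : F S | (x : G) * a0 ∈ C} := rfl
      show m S _ = m S _ + m S _
      rw [h2]
      apply (hm S).1
      rw [Set.disjoint_left]
      intro x hx hx'
      exact Set.disjoint_left.mp hBC hx hx'
    rw [h1]
    exact (hμ B).add (hμ C)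
  · intro g B
    apply tendsto_nhds_unique (hμ ((fun x => g * x) '' B))
    apply (hμ B).congr'
    have h1 : ∀ᶠ S in (atTop : Filter (Finset G)), g ∈ S := by
      filter_upwards [eventually_ge_atTop ({g} : Finset G)] with S hS
      exact hS (Finset.mem_singleton_self g)
    filter_upwards [(Ultrafilter.of_le atTop) h1] with S hS
    show m S {x : F S | (x : G) * a0 ∈ B} = m S {x : F S | (x : G) * a0 ∈ (fun x => g * x) '' B}
    rw [← (hm S).2 ⟨g, hmem S g hS⟩ {x : F S | (x : G) * a0 ∈ B}]
    congr 1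
    ext x
    constructor
    · rintro ⟨y, hy, rfl⟩
      refine ⟨(y : G) * a0, hy, ?_⟩
      show g * ((y : G) * a0) = g * (y : G) * a0
      rw [mul_assoc]
    · rintro ⟨b, hb, hbx⟩
      refine ⟨(⟨g, hmem S g hS⟩ : F S)⁻¹ * x, ?_, mul_inv_cancel_left _ _⟩
      show g⁻¹ * (x : G) * a0 ∈ B
      rw [mul_assoc, ← hbx]
      simpa using hb

end RzE
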