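import Pool.Agent.Lib.RzT.Defs

/-!
Supramenability.
-/

set_option autoImplicit false

namespace RzE

/-- `G` is supramenable. -/
def Supra (G : Type) [Group G] : Prop :=
  ∀ A : Set G, A.Nonempty → ∃ μ : Set G → ENNReal, μ A = 1 ∧ RzT.InvMeas μ

end RzE
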