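import Pool.Agent.Lib.RzW.Full

/-!
Free subsemigroups and powers.
-/

set_option autoImplicit false

namespace RzE

/-- the list of letters -/
def tl {ι : Type} (u : FreeSemigroup ι) : List ι := u.head :: u.tail

theorem tl_inj {ι : Type} {u v : FreeSemigroup ι} (h : tl u = tl v) : u = v := by
  cases u
  cases v
  simp only [tl, List.cons.injEq] at h
  rw [h.1, h.2]

theorem lift_tl {G ι : Type} [Group G] (f : ι → G) (u : FreeSemigroup ι) :
    FreeSemigroup.lift f u = ((tl u).map f).prod := by
  change u.tail.foldl (fun a b => a * f b) (f u.head) = _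
  rw [RzT.foldl_mul, tl, List.map_cons, List.prod_cons]

theorem rep_inj {ι : Type} (n : ι → ℕ) (hn : ∀ i, 0 < n i) : ∀ L L' : List ι,
    L.flatMap (fun i => List.replicate (n i) i) = L'.flatMap (fun i => List.replicate (n i) i) →
      L = L' := by
  intro L
  induction L with
  | nil =>
    intro L' h
    cases L' with
    | nil => rfl
    | cons a t =>
      exfalso
      have h1 := congrArg List.length h
      simp only [List.flatMap_nil, List.length_nil, List.flatMap_cons, List.length_append,
        List.length_replicate] at h1
      have := hn a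
      omega
  | cons a t ih =>
    intro L' h
    cases L' with
    | nil =>
      exfalso
      have h1 := congrArg List.length h
      simp only [List.flatMap_nil, List.length_nil, List.flatMap_cons, List.length_append,
        List.length_replicate] at h1
      have := hn a
      omega
    | cons a' t' =>
      obtain ⟨m, hm⟩ := Nat.exists_eq_succ_of_ne_zero (hn a).ne'
      obtain ⟨m', hm'⟩ := Nat.exists_eq_succ_of_ne_zero (hn a').ne'
      have h0 : a = a' := by
        rw [List.flatMap_cons, List.flatMap_cons, hm, hm', Nat.succ_eq_add_one,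
          Nat.succ_eq_add_one, List.replicate_succ, List.replicate_succ, List.cons_append,
          List.cons_append] at h
        exact (List.cons.inj h).1
      subst h0
      rw [List.flatMap_cons, List.flatMap_cons] at h
      rw [ih t' (List.append_cancel_left h)]

theorem prod_rep {G ι : Type} [Group G] (f : ι → G) (n : ι → ℕ) (L : List ι) :
    (L.map fun i => f i ^ n i).prod =
      ((L.flatMap fun i => List.replicate (n i) i).map f).prod := by
  induction L with
  | nil => simp
  | cons a t ih =>
    rw [List.map_cons, List.prod_cons, ih, List.flatMap_cons, List.map_append, List.prod_append,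
      List.map_replicate, List.prod_replicate]

theorem free_pow {G ι : Type} [Group G] (f : ι → G) (n : ι → ℕ) (hn : ∀ i, 0 < n i)
    (hf : Function.Injective ⇑(FreeSemigroup.lift f)) :
    Function.Injective ⇑(FreeSemigroup.lift fun i => f i ^ n i) := by
  have hne : ∀ u : FreeSemigroup ι, ∃ U : FreeSemigroup ι,
      tl U = (tl u).flatMap fun i => List.replicate (n i) i := by
    intro u
    cases h : (tl u).flatMap fun i => List.replicate (n i) i with
    | nil =>
      exfalso
      have h1 : tl u = [] := rep_inj n hn _ _ (by rw [h]; rfl)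
      exact List.cons_ne_nil _ _ h1
    | cons a t => exact ⟨⟨a, t⟩, rfl⟩
  intro u v huv
  obtain ⟨U, hU⟩ := hne u
  obtain ⟨V, hV⟩ := hne v
  rw [lift_tl, lift_tl, prod_rep, prod_rep, ← hU, ← hV, ← lift_tl, ← lift_tl] at huv
  have h1 := hf huv
  apply tl_inj
  apply rep_inj n hn
  rw [← hU, ← hV, h1]

theorem free_sub {G : Type} [Group G] (K : Subgroup G)
    (hper : ∀ w : G, ∃ k : ℕ, 0 < k ∧ w ^ k ∈ K)
    (h : ∃ f : Fin 2 → G, Function.Injective ⇑(FreeSemigroup.lift f)) :
    ∃ f : Fin 2 → K, Function.Injective ⇑(FreeSemigroup.lift f) := by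
  obtain ⟨f, hf⟩ := h
  choose n hn hnK using hper
  have h1 := free_pow f (fun i => n (f i)) (fun i => hn (f i)) hf
  refine ⟨fun i => ⟨f i ^ n (f i), hnK (f i)⟩, ?_⟩
  intro u v huv
  apply h1
  rw [lift_tl, lift_tl] at huv ⊢
  have h2 := congrArg K.subtype huv
  rw [map_list_prod, map_list_prod, List.map_map, List.map_map] at h2
  exact h2

theorem free_up {G : Type} [Group G] (K : Subgroup G)
    (h : ∃ f : Fin 2 → K, Function.Injective ⇑(FreeSemigroup.lift f)) :
    ∃ f : Fin 2 → G, Function.Injective ⇑(FreeSemigroup.lift f) := by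
  obtain ⟨f, hf⟩ := h
  refine ⟨fun i => (f i : G), ?_⟩
  intro u v huv
  apply hf
  rw [lift_tl, lift_tl] at huv ⊢
  apply Subtype.ext
  have h2 : ∀ L : List (Fin 2), ((L.map f).prod : G) = (L.map fun i => (f i : G)).prod := by
    intro L
    rw [← Subgroup.coe_subtype, map_list_prod, List.map_map]
    rfl
  rw [h2, h2]
  exact huv

end RzE
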