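import Pool.Agent.Lib.RzE.Iff
import Pool.Agent.Lib.RzV.Full

/-!
The quotients `F/M` with `M` below a verbal subgroup of `N`: exact form.
-/

set_option autoImplicit false

namespace RzE

open RzT (InvMeas Folner)
open RzV (Verb L D)

variable {α : Type} (N M : Subgroup (FreeGroup α)) [N.Normal] [M.Normal]

omit [N.Normal] in
theorem verb_le (W : Set (FreeGroup ℕ)) : Verb N W ≤ N := by
  rw [Verb, Subgroup.closure_le]
  rintro _ ⟨w, -, ψ, hψ, rfl⟩
  exact hψ w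

theorem supra_iff (hMN : M ≤ N) (K : Subgroup (FreeGroup α ⧸ M)) [K.Normal]
    (hK : K = N.map (QuotientGroup.mk' M)) (hS : Supra K)
    (hlf : ∀ S : Finset (FreeGroup α ⧸ N),
      Finite (Subgroup.closure (S : Set (FreeGroup α ⧸ N)))) : Supra (FreeGroup α ⧸ M) := by
  classical
  subst hK
  apply supra_of_lf _ hS
  intro S
  let e : (FreeGroup α ⧸ M) ⧸ N.map (QuotientGroup.mk' M) ≃* FreeGroup α ⧸ N :=
    QuotientGroup.quotientQuotientEquivQuotient M N hMN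
  have h1 := hlf (S.image e)
  have h2 : (Subgroup.closure (S : Set ((FreeGroup α ⧸ M) ⧸ N.map (QuotientGroup.mk' M)))).map
      e.toMonoidHom = Subgroup.closure ((S.image e : Finset (FreeGroup α ⧸ N)) :
        Set (FreeGroup α ⧸ N)) := by
    rw [MonoidHom.map_closure, Finset.coe_image]
    rfl
  rw [← h2] at h1
  exact Finite.of_equiv _ ((Subgroup.equivMapOfInjective _ e.toMonoidHom e.injective).symm).toEquiv

theorem vfull (hN : N ≠ ⊥) :
    (∀ (K : Type) [Group K] [Nontrivial K] (W : Set (FreeGroup ℕ)),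
      (∀ w ∈ W, ∀ φ : FreeGroup ℕ →* K, φ w = 1) → M ≤ Verb N W →
      (Supra (FreeGroup α ⧸ M) ↔ Supra (N.map (QuotientGroup.mk' M)) ∧
        ∀ S : Finset (FreeGroup α ⧸ N),
          Finite (Subgroup.closure (S : Set (FreeGroup α ⧸ N)))) ∧
      ((∃ f : Fin 2 → FreeGroup α ⧸ M, Function.Injective ⇑(FreeSemigroup.lift f)) ↔
        (∃ f : Fin 2 → N.map (QuotientGroup.mk' M),
          Function.Injective ⇑(FreeSemigroup.lift f)) ∨
        ∃ w : FreeGroup α, ∀ k : ℕ, 0 < k → w ^ k ∉ N)) ∧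
    ((∃ c : ℕ, L N c ≤ M) → (∀ w : FreeGroup α, ∃ k : ℕ, 0 < k ∧ w ^ k ∈ N) →
      ¬ ∃ f : Fin 2 → FreeGroup α ⧸ M, Function.Injective ⇑(FreeSemigroup.lift f)) ∧
    ((∃ i : ℕ, D N i ≤ M) → Folner (FreeGroup α ⧸ N) →
      ∃ m : Set (FreeGroup α ⧸ M) → ENNReal, m Set.univ = 1 ∧ InvMeas m) ∧
    (M = ⁅N, N⁆ → ∀ (g : FreeGroup α ⧸ M) (k : ℕ), 0 < k → g ^ k = 1 → g = 1) := by
  obtain ⟨h1, h2, h3, h4⟩ := RzV.full N M hN
  refine ⟨?_, h2, h3, h4⟩
  intro K _ _ W hW hM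
  obtain ⟨k1, k2⟩ := h1 K W hW hM
  have hMN : M ≤ N := hM.trans (verb_le N W)
  have hnor : (N.map (QuotientGroup.mk' M)).Normal :=
    Subgroup.Normal.map inferInstance _ (QuotientGroup.mk'_surjective M)
  refine ⟨⟨fun h => ⟨supra_sub _ h, ?_⟩, fun h => supra_iff N M hMN _ rfl h.1 h.2⟩, ?_, ?_⟩
  · intro S
    by_contra hS
    rw [not_finite_iff_infinite] at hS
    obtain ⟨B, hB, hB2⟩ := k1 ⟨S, hS⟩
    exact hB2 (h B hB)
  · intro hf
    by_cases hper : ∃ w : FreeGroup α, ∀ k : ℕ, 0 < k → w ^ k ∉ N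
    · exact Or.inr hper
    · left
      push Not at hper
      apply free_sub _ _ hf
      intro x
      obtain ⟨w, rfl⟩ := QuotientGroup.mk_surjective x
      obtain ⟨k, hk, hw⟩ := hper w
      exact ⟨k, hk, w ^ k, hw, rfl⟩
  · rintro (h | h)
    · exact free_up _ h
    · exact k2 h

end RzE
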